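import Mathlib

/-!
# Kronecker's theorem with absolute values on the field of all algebraic numbers

An algebraic number all of whose absolute values, at all places of the field of all algebraic numbers,
are equal to `1` is a root of unity.
-/

set_option autoImplicit false

namespace Pool.Agent.N817.OP

open Polynomial

/-- the field of all algebraic numbers -/
abbrev Qbar : Type := AlgebraicClosure ℚ

theorem isAlg : Algebra.IsAlgebraic ℚ Qbar := by
  have h : @Algebra.IsAlgebraic ℚ (AlgebraicClosure ℚ) _ _ (AlgebraicClosure.instAlgebra ℚ) :=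
    inferInstance
  convert h
  exact Subsingleton.elim _ _

lemma isInt (α : Qbar) : IsIntegral ℚ α := (isAlg.isAlgebraic α).isIntegral

lemma coeff_mul_le {k : Type*} [NormedField k] [IsUltrametricDist k] {P Q : k[X]}
    (hP : ∀ i, ‖P.coeff i‖ ≤ 1) (hQ : ∀ i, ‖Q.coeff i‖ ≤ 1) (i : ℕ) : ‖(P * Q).coeff i‖ ≤ 1 := by
  rw [coeff_mul]
  refine IsUltrametricDist.norm_sum_le_of_forall_le_of_nonneg zero_le_one fun x _ => ?_
  rw [norm_mul]
  exact mul_le_one₀ (hP _) (norm_nonneg _) (hQ _)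

lemma coeff_X_sub_C_le {k : Type*} [NormedField k] {y : k} (hy : ‖y‖ ≤ 1) (i : ℕ) :
    ‖(X - C y : k[X]).coeff i‖ ≤ 1 := by
  rcases i with _ | _ | i
  · simpa using hy
  · simp
  · simp [coeff_X]

lemma coeff_prod_le {k : Type*} [NormedField k] [IsUltrametricDist k] (s : Multiset k)
    (hs : ∀ y ∈ s, ‖y‖ ≤ 1) : ∀ i, ‖((s.map fun y => X - C y).prod : k[X]).coeff i‖ ≤ 1 := by
  induction s using Multiset.induction with
  | empty =>
    intro i
    rw [Multiset.map_zero, Multiset.prod_zero, coeff_one]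
    split <;> simp
  | cons a s ih =>
    rw [Multiset.map_cons, Multiset.prod_cons]
    exact coeff_mul_le (coeff_X_sub_C_le (hs a (Multiset.mem_cons_self a s)))
      (ih fun y hy => hs y (Multiset.mem_cons_of_mem hy))

lemma exists_embedding {k : Type*} [Field k] [CharZero k] [IsAlgClosed k] (α : Qbar) (y : k)
    (hy : aeval y (minpoly ℚ α) = 0) : ∃ τ : Qbar →+* k, τ α = y := by
  obtain ⟨φ, hφ⟩ := IntermediateField.exists_algHom_of_splits_of_aeval (F := ℚ) (E := Qbar) (K := k)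
    (x := α) (y := y) (fun x => ⟨isInt x, IsAlgClosed.splits _⟩) hy
  exact ⟨φ, hφ⟩

lemma isInt_of_norm (q : ℚ) (h : ∀ (r : ℕ) [Fact r.Prime], ‖(q : ℚ_[r])‖ ≤ 1) : ∃ n : ℤ, (n : ℚ) = q := by
  refine ⟨q.num, ?_⟩
  by_contra hne
  have hden : q.den ≠ 1 := fun h1 => hne (Rat.coe_int_num_of_den_eq_one h1)
  obtain ⟨r, hr, hd⟩ := Nat.exists_prime_and_dvd hden
  have : Fact r.Prime := ⟨hr⟩
  have h1 := h r
  have hq : q ≠ 0 := by
    rintro rfl
    exact hden (by simp)
  have h2 : ‖((q.den : ℚ) : ℚ_[r])‖ < 1 := by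
    have : ((q.den : ℚ) : ℚ_[r]) = ((q.den : ℤ) : ℚ_[r]) := by push_cast; rfl
    rw [this, Padic.norm_intCast_lt_one_iff]
    exact_mod_cast hd
  have h3 : ‖((q.num : ℚ) : ℚ_[r])‖ = 1 := by
    have h4 : ((q.num : ℚ) : ℚ_[r]) = ((q.num : ℤ) : ℚ_[r]) := by push_cast; rfl
    rw [h4]
    refine le_antisymm (Padic.norm_int_le_one _) ?_
    by_contra h5
    push Not at h5
    rw [Padic.norm_intCast_lt_one_iff] at h5
    have h6 : r ∣ q.num.natAbs := Int.natCast_dvd.mp h5
    have h7 := Nat.dvd_gcd h6 hd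
    rw [q.reduced] at h7
    exact hr.one_lt.ne' (Nat.dvd_one.mp h7)
  have h8 : (q : ℚ_[r]) * ((q.den : ℚ) : ℚ_[r]) = ((q.num : ℚ) : ℚ_[r]) := by
    rw [← Rat.cast_mul, Rat.mul_den_eq_num]
  have h9 : ‖(q : ℚ_[r])‖ * ‖((q.den : ℚ) : ℚ_[r])‖ = 1 := by rw [← norm_mul, h8, h3]
  have h10 : ‖(q : ℚ_[r])‖ * ‖((q.den : ℚ) : ℚ_[r])‖ < 1 := by
    calc ‖(q : ℚ_[r])‖ * ‖((q.den : ℚ) : ℚ_[r])‖ ≤ 1 * ‖((q.den : ℚ) : ℚ_[r])‖ :=
          mul_le_mul_of_nonneg_right h1 (norm_nonneg _)
      _ < 1 := by rw [one_mul]; exact h2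
  exact absurd h9 h10.ne

/-- an algebraic number whose nonarchimedean absolute values are at most `1` is integral -/
theorem isIntegral_of_norm (α : Qbar)
    (h : ∀ (r : ℕ) [Fact r.Prime] (τ : Qbar →+* PadicAlgCl r), ‖τ α‖ ≤ 1) : IsIntegral ℤ α := by
  have hα : IsIntegral ℚ α := isInt α
  have key : ∀ i, ∃ n : ℤ, (n : ℚ) = (minpoly ℚ α).coeff i := by
    intro i
    refine isInt_of_norm _ fun r _ => ?_
    have hs : ((minpoly ℚ α).map (algebraMap ℚ (PadicAlgCl r))).Splits := IsAlgClosed.splits _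
    have hm : ((minpoly ℚ α).map (algebraMap ℚ (PadicAlgCl r))).Monic := (minpoly.monic hα).map _
    have h1 := coeff_prod_le ((minpoly ℚ α).map (algebraMap ℚ (PadicAlgCl r))).roots (fun y hy => ?_) i
    · rw [← hs.eq_prod_roots_of_monic hm, coeff_map] at h1
      rw [← PadicAlgCl.norm_extends]
      convert h1 using 2
      rw [map_ratCast (algebraMap ℚ_[r] (PadicAlgCl r))]
      simp
    · have hy' : aeval y (minpoly ℚ α) = 0 := by
        have := (mem_roots'.mp hy).2
        rwa [IsRoot, eval_map_algebraMap] at this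
      obtain ⟨τ, hτ⟩ := exists_embedding α y hy'
      rw [← hτ]
      exact h r τ
  choose c hc using key
  have h2 : (minpoly ℚ α) ∈ Polynomial.lifts (Int.castRingHom ℚ) := by
    rw [Polynomial.lifts_iff_coeff_lifts]
    intro i
    exact ⟨c i, by rw [← hc i]; simp⟩
  obtain ⟨f, hf, -, hfm⟩ := Polynomial.lifts_and_degree_eq_and_monic h2 (minpoly.monic hα)
  refine ⟨f, hfm, ?_⟩
  have h3 : aeval α (minpoly ℚ α) = 0 := minpoly.aeval ℚ α
  rw [← hf, aeval_def, eval₂_map] at h3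
  have h4 : (algebraMap ℤ Qbar) = (algebraMap ℚ Qbar).comp (Int.castRingHom ℚ) := RingHom.ext_int _ _
  rw [h4]
  exact h3

/-- **Kronecker's theorem.** -/
theorem root_of_unity (α : Qbar) (h0 : α ≠ 0) (h1 : ∀ σ : Qbar →+* ℂ, ‖σ α‖ ≤ 1)
    (h : ∀ (r : ℕ) [Fact r.Prime] (τ : Qbar →+* PadicAlgCl r), ‖τ α‖ ≤ 1) :
    ∃ m : ℕ, 0 < m ∧ α ^ m = 1 := by
  have hα : IsIntegral ℚ α := isInt α
  have hfin : FiniteDimensional ℚ (IntermediateField.adjoin ℚ {α}) :=
    IntermediateField.adjoin.finiteDimensional hα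
  have : NumberField (IntermediateField.adjoin ℚ {α}) := {}
  let x : IntermediateField.adjoin ℚ {α} := IntermediateField.AdjoinSimple.gen ℚ α
  have hx : (x : Qbar) = α := IntermediateField.AdjoinSimple.coe_gen ℚ α
  have hxi : IsIntegral ℤ x := by
    rw [← isIntegral_algebraMap_iff (B := Qbar) (algebraMap (IntermediateField.adjoin ℚ {α}) Qbar).injective]
    exact isIntegral_of_norm α h
  have hx0 : x ≠ 0 := by
    intro h2
    apply h0
    rw [← hx, h2]
    rfl
  obtain ⟨m, hm, he⟩ := NumberField.Embeddings.pow_eq_one_of_norm_le_one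
    (IntermediateField.adjoin ℚ {α}) ℂ hx0 hxi (fun φ => by
      have h3 : aeval (φ x) (minpoly ℚ α) = 0 := by
        have h4 : aeval x (minpoly ℚ α) = 0 := by
          apply (algebraMap (IntermediateField.adjoin ℚ {α}) Qbar).injective
          rw [map_zero, ← aeval_algebraMap_apply]
          exact minpoly.aeval ℚ α
        have h5 := congrArg φ.toRatAlgHom h4
        rw [map_zero, ← aeval_algHom_apply] at h5
        exact h5
      obtain ⟨σ, hσ⟩ := exists_embedding α (φ x) h3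
      rw [← hσ]
      exact h1 σ)
  refine ⟨m, hm, ?_⟩
  rw [← hx]
  have := congrArg (algebraMap (IntermediateField.adjoin ℚ {α}) Qbar) he
  simpa using this

end Pool.Agent.N817.OP
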