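import Mathlib

/-! Two-dimensional representations which are commutative on a normal subgroup. -/

set_option autoImplicit false

namespace Pool.Agent.N817.OP.Two

open Matrix

variable {G C : Type*} [Group G] [Field C]

/-- if `y` is an eigenvector of a 2x2 matrix with two independent eigenvectors of different
eigenvalues then it is a multiple of one of them -/
theorem line_cases {M : Matrix (Fin 2) (Fin 2) C} {x0 x1 y : Fin 2 → C} {a b c : C}
    (h0 : M *ᵥ x0 = a • x0) (h1 : M *ᵥ x1 = b • x1) (hy : M *ᵥ y = c • y)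
    (hli : LinearIndependent C ![x0, x1]) (hM : ∀ d : C, M ≠ d • 1) :
    (∃ t : C, y = t • x0) ∨ ∃ t : C, y = t • x1 := by
  have hcard : Fintype.card (Fin 2) = Module.finrank C (Fin 2 → C) := by simp
  let B := basisOfLinearIndependentOfCardEqFinrank hli hcard
  have hB0 : B 0 = x0 := by simp [B]
  have hB1 : B 1 = x1 := by simp [B]
  have hab : a ≠ b := by
    rintro rfl
    apply hM a
    apply Matrix.toLin'.injective
    apply B.ext
    intro i
    fin_cases i
    · simp [hB0, Matrix.toLin'_apply, h0]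
    · simp [hB1, Matrix.toLin'_apply, h1]
  obtain ⟨s, t, hst⟩ : ∃ s t : C, y = s • x0 + t • x1 := by
    refine ⟨B.repr y 0, B.repr y 1, ?_⟩
    have := B.sum_repr y
    rw [Fin.sum_univ_two, hB0, hB1] at this
    exact this.symm
  have h2 : ((a - c) * s) • x0 + ((b - c) * t) • x1 = 0 := by
    have h3 : M *ᵥ y = (s * a) • x0 + (t * b) • x1 := by
      rw [hst, Matrix.mulVec_add, Matrix.mulVec_smul, Matrix.mulVec_smul, h0, h1, smul_smul,
        smul_smul]
    rw [hy, hst] at h3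
    have h4 : (s * a) • x0 + (t * b) • x1 - c • (s • x0 + t • x1) = 0 := by
      rw [← h3, sub_self]
    rw [← h4]
    simp only [smul_add, smul_smul, sub_mul, sub_smul]
    ring_nf
  rw [LinearIndependent.pair_iff] at hli
  obtain ⟨h5, h6⟩ := hli _ _ h2
  by_cases hs : s = 0
  · right
    exact ⟨t, by rw [hst, hs]; simp⟩
  · left
    have h7 : a - c = 0 := by
      rcases mul_eq_zero.1 h5 with h | h
      · exact h
      · exact absurd h hs
    have h8 : b - c ≠ 0 := by
      intro h9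
      apply hab
      rw [sub_eq_zero.1 h7, sub_eq_zero.1 h9]
    have h9 : t = 0 := by
      rcases mul_eq_zero.1 h6 with h | h
      · exact absurd h h8
      · exact h
    exact ⟨s, by rw [hst, h9]; simp⟩

/-- **Dihedral or scalar.** -/
theorem dihedral [IsAlgClosed C] (r : G →* Matrix (Fin 2) (Fin 2) C) (U : Subgroup G) [U.Normal]
    (hU : ∀ u ∈ U, ∀ v ∈ U, r u * r v = r v * r u)
    (u0 : G) (hu0 : u0 ∈ U) (hns : ∀ d : C, r u0 ≠ d • 1)
    (hirr : ¬ ∃ x : Fin 2 → C, x ≠ 0 ∧ ∀ g, ∃ c : C, r g *ᵥ x = c • x) :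
    ∃ H : Subgroup G, U ≤ H ∧ H.index = 2 ∧
      ∃ x : Fin 2 → C, x ≠ 0 ∧ ∀ g ∈ H, ∃ c : C, r g *ᵥ x = c • x := by
  -- an eigenvector of `r u0`
  obtain ⟨a, ha⟩ := Module.End.exists_eigenvalue (Matrix.toLin' (r u0))
  obtain ⟨x0, hx0⟩ := ha.exists_hasEigenvector
  have hx0' : x0 ≠ 0 := hx0.2
  have h0 : r u0 *ᵥ x0 = a • x0 := by
    have := hx0.apply_eq_smul
    simpa [Matrix.toLin'_apply] using this
  -- it is an eigenvector of all `r u`
  have hone : ∀ y : Fin 2 → C, r u0 *ᵥ y = a • y → ∃ t : C, y = t • x0 := by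
    intro y hy
    by_contra hcon
    have hli : LinearIndependent C ![x0, y] := by
      rw [LinearIndependent.pair_iff' hx0']
      intro t ht
      exact hcon ⟨t, ht.symm⟩
    have hcard : Fintype.card (Fin 2) = Module.finrank C (Fin 2 → C) := by simp
    let B := basisOfLinearIndependentOfCardEqFinrank hli hcard
    have hB0 : B 0 = x0 := by simp [B]
    have hB1 : B 1 = y := by simp [B]
    apply hns a
    apply Matrix.toLin'.injective
    apply B.ext
    intro i
    fin_cases i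
    · simp [hB0, Matrix.toLin'_apply, h0]
    · simp [hB1, Matrix.toLin'_apply, hy]
  have hall : ∀ u ∈ U, ∃ c : C, r u *ᵥ x0 = c • x0 := by
    intro u hu
    apply hone
    rw [Matrix.mulVec_mulVec, hU u0 hu0 u hu, ← Matrix.mulVec_mulVec, h0, Matrix.mulVec_smul]
  have hinv : ∀ g : G, r g⁻¹ * r g = 1 := fun g => by rw [← map_mul, inv_mul_cancel, map_one]
  have hinv' : ∀ g : G, r g * r g⁻¹ = 1 := fun g => by rw [← map_mul, mul_inv_cancel, map_one]
  have hcne : ∀ (g : G) (c : C), r g *ᵥ x0 = c • x0 → c ≠ 0 := by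
    rintro g c h rfl
    apply hx0'
    have : r g⁻¹ *ᵥ (r g *ᵥ x0) = x0 := by rw [Matrix.mulVec_mulVec, hinv, Matrix.one_mulVec]
    rw [← this, h]
    simp
  let H : Subgroup G :=
    { carrier := {g | ∃ c : C, r g *ᵥ x0 = c • x0}
      mul_mem' := by
        rintro g h ⟨c, hc⟩ ⟨d, hd⟩
        refine ⟨d * c, ?_⟩
        rw [map_mul, ← Matrix.mulVec_mulVec, hd, Matrix.mulVec_smul, hc, smul_smul]
      one_mem' := ⟨1, by rw [map_one, Matrix.one_mulVec, one_smul]⟩
      inv_mem' := by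
        rintro g ⟨c, hc⟩
        refine ⟨c⁻¹, ?_⟩
        have h1 : r g⁻¹ *ᵥ (r g *ᵥ x0) = x0 := by
          rw [Matrix.mulVec_mulVec, hinv, Matrix.one_mulVec]
        rw [hc, Matrix.mulVec_smul] at h1
        have h2 := hcne g c hc
        calc r g⁻¹ *ᵥ x0 = c⁻¹ • (c • (r g⁻¹ *ᵥ x0)) := by rw [smul_smul, inv_mul_cancel₀ h2, one_smul]
          _ = c⁻¹ • x0 := by rw [h1] }
  have hH : ∀ g, g ∈ H ↔ ∃ c : C, r g *ᵥ x0 = c • x0 := fun g => Iff.rfl
  have hUH : U ≤ H := fun u hu => (hH u).2 (hall u hu)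
  -- the translates of the line are eigenlines of `U`
  have htr : ∀ g : G, ∀ u ∈ U, ∃ c : C, r u *ᵥ (r g *ᵥ x0) = c • (r g *ᵥ x0) := by
    intro g u hu
    have h1 : g⁻¹ * u * g ∈ U := by
      have := Subgroup.Normal.conj_mem (inferInstance : U.Normal) u hu g⁻¹
      simpa using this
    obtain ⟨c, hc⟩ := hall _ h1
    refine ⟨c, ?_⟩
    have h2 : u * g = g * (g⁻¹ * u * g) := by group
    rw [Matrix.mulVec_mulVec, ← map_mul, h2, map_mul, ← Matrix.mulVec_mulVec, hc,
      Matrix.mulVec_smul]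
  have hkey : ∀ g0 g : G, g0 ∉ H → g ∉ H → g0⁻¹ * g ∈ H := by
    intro g0 g hg0 hg
    obtain ⟨b, hb⟩ := htr g0 u0 hu0
    obtain ⟨c, hc⟩ := htr g u0 hu0
    have hli : LinearIndependent C ![x0, r g0 *ᵥ x0] := by
      rw [LinearIndependent.pair_iff' hx0']
      intro t ht
      exact hg0 ((hH g0).2 ⟨t, ht.symm⟩)
    rcases line_cases h0 hb hc hli hns with ⟨t, ht⟩ | ⟨t, ht⟩
    · exact absurd ((hH g).2 ⟨t, ht⟩) hg
    · refine (hH _).2 ⟨t, ?_⟩
      rw [map_mul, ← Matrix.mulVec_mulVec, ht, Matrix.mulVec_smul, Matrix.mulVec_mulVec, hinv,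
        Matrix.one_mulVec]
  have hne : ∃ g0, g0 ∉ H := by
    by_contra hcon
    push Not at hcon
    exact hirr ⟨x0, hx0', fun g => (hH g).1 (hcon g)⟩
  obtain ⟨g0, hg0⟩ := hne
  refine ⟨H, hUH, ?_, x0, hx0', fun g hg => (hH g).1 hg⟩
  rw [Subgroup.index_eq_two_iff]
  refine ⟨g0, fun b => ?_⟩
  by_cases hb : b ∈ H
  · right
    refine ⟨hb, fun h => hg0 ?_⟩
    have := H.mul_mem (H.inv_mem hb) h
    rwa [inv_mul_cancel_left] at this
  · left
    refine ⟨?_, hb⟩
    have hb' : b⁻¹ ∉ H := fun h => hb (by simpa using H.inv_mem h)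
    have := H.inv_mem (hkey g0 b⁻¹ hg0 hb')
    simpa using this

end Pool.Agent.N817.OP.Two
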